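import Mathlib
import Pool.Agent.U157.DL.Any

/-!
# Functions of orders which come from a quotient
-/

set_option autoImplicit false
set_option linter.unusedSectionVars false

namespace Pool.Agent.U157.EC

open Pool.Agent.R389 Pool.Agent.H302R2 Pool.Agent.H302R3 Pool.Agent.H541R3.ART Pool.Agent.W446.AS
  Filter Topology

variable {Q : Type} [Group Q] [Finite Q]

open Classical in
/-- the multiplicity of an irreducible character in the function of the orders -/
lemma pr_theta_irr {l : (Q → ℂ) → ℂ → ℂ} {c : ℂ} {χ : Q → ℂ} (hχ : χ ∈ Irr Q) :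
    pr (theta (ords l c) : Q → ℂ) χ = ords l c χ := by
  have h1 : ∀ η ∈ Irr Q, pr χ η = ((if η = χ then (1 : ℤ) else 0 : ℤ) : ℂ) := by
    intro η hη
    by_cases h : η = χ
    · rw [if_pos h, h, pr_self hχ]
      simp
    · rw [if_neg h, pr_ne hχ hη (Ne.symm h)]
      simp
  rw [pr_ords (m := fun η => if η = χ then (1 : ℤ) else 0) h1]
  simp only [ite_mul, one_mul, zero_mul]
  rw [Finset.sum_ite_eq' (irrF Q) χ, if_pos (mem_irrF.mpr hχ)]

/-- a function of orders which is constant on a normal subgroup comes from the quotient -/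
lemma theta_inv {l : (Q → ℂ) → ℂ → ℂ} {c : ℂ} (hθ : HA (theta (ords l c) : Q → ℂ))
    {K : Subgroup Q} [K.Normal]
    (hK : ∀ k ∈ K, (theta (ords l c) : Q → ℂ) k = (theta (ords l c) : Q → ℂ) 1) (g : Q) {k : Q}
    (hk : k ∈ K) : (theta (ords l c) : Q → ℂ) (g * k) = (theta (ords l c) : Q → ℂ) g := by
  have h1 : ∀ x : Q, (theta (ords l c) : Q → ℂ) x = ∑ χ ∈ irrF Q, (ords l c χ : ℂ) * χ x := fun _ => rfl
  rw [h1, h1]
  refine Finset.sum_congr rfl fun χ hχ => ?_
  rcases irr_inv K (mem_irrF.mp hχ) with h | ⟨-, h⟩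
  · rw [h g k hk]
  · have h2 := hθ.hs.ht.ortho_irr hK (AddSubgroup.subset_closure (mem_irrF.mp hχ)) h
    rw [pr_theta_irr (mem_irrF.mp hχ)] at h2
    rw [h2, zero_mul, zero_mul]

open Classical in
/-- multiplicities in a quotient -/
lemma pr_quot {N : Subgroup Q} [N.Normal] {θ : Q → ℂ} (hinv : ∀ g, ∀ k ∈ N, θ (g * k) = θ g)
    (f : Q ⧸ N → ℂ) : pr θ (fun g => f (QuotientGroup.mk g)) = pr (fun q : Q ⧸ N => θ q.out) f := by
  have : Fintype Q := Fintype.ofFinite Q
  have : Fintype N := Fintype.ofFinite N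
  have : Fintype (Q ⧸ N) := Fintype.ofFinite _
  have hθ : ∀ g : Q, θ g = θ (QuotientGroup.mk g : Q ⧸ N).out := by
    intro g
    obtain ⟨n, hn⟩ := QuotientGroup.mk_out_eq_mul N g
    rw [hn, hinv g _ n.2]
  let e : (Q ⧸ N) × N → Q := fun x => x.1.out * x.2
  have he : ∀ x, (QuotientGroup.mk (e x) : Q ⧸ N) = x.1 := by
    rintro ⟨q, n⟩
    change (QuotientGroup.mk (q.out * (n : Q)) : Q ⧸ N) = q
    rw [QuotientGroup.mk_mul_of_mem _ n.2, QuotientGroup.out_eq']
  have hb : Function.Bijective e := by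
    constructor
    · rintro ⟨q, n⟩ ⟨q', n'⟩ h
      have h1 : q = q' := by
        have := congrArg (QuotientGroup.mk : Q → Q ⧸ N) h
        rwa [he, he] at this
      subst h1
      have h2 : q.out * (n : Q) = q.out * (n' : Q) := h
      rw [Subtype.ext (mul_left_cancel h2)]
    · intro g
      obtain ⟨n, hn⟩ := QuotientGroup.mk_out_eq_mul N g
      refine ⟨(QuotientGroup.mk g, n⁻¹), ?_⟩
      change (QuotientGroup.mk g : Q ⧸ N).out * ((n⁻¹ : N) : Q) = g
      rw [hn]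
      simp
  rw [pr_eq, pr_eq]
  have h1 : ∑ g : Q, θ g * f (QuotientGroup.mk g⁻¹) =
      ∑ x : (Q ⧸ N) × N, θ x.1.out * f x.1⁻¹ := by
    rw [← hb.sum_comp]
    refine Finset.sum_congr rfl fun x _ => ?_
    rw [hθ (e x), he]
    congr 2
    change (QuotientGroup.mk (e x) : Q ⧸ N)⁻¹ = _
    rw [he]
  change _ * ∑ g : Q, θ g * f (QuotientGroup.mk g⁻¹) = _
  rw [h1, Fintype.sum_prod_type]
  simp only [Finset.sum_const, Finset.card_univ, nsmul_eq_mul]
  rw [← Finset.mul_sum, ← mul_assoc]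
  congr 1
  have h2 : Nat.card Q = Nat.card (Q ⧸ N) * Nat.card N := Subgroup.card_eq_card_quotient_mul_card_subgroup N
  have h3 : (Nat.card N : ℂ) ≠ 0 := by exact_mod_cast Nat.card_pos.ne'
  have h4 : (Nat.card (Q ⧸ N) : ℂ) ≠ 0 := by exact_mod_cast Nat.card_pos.ne'
  rw [← Nat.card_eq_fintype_card, h2]
  push_cast
  field_simp

/-- the function on the quotient -/
lemma quot_HS {N : Subgroup Q} [N.Normal] {θ : Q → ℂ} (hθ : HA θ)
    (hinv : ∀ g, ∀ k ∈ N, θ (g * k) = θ g) : HS (fun q : Q ⧸ N => θ q.out) where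
  conj g x := by
    obtain ⟨g, rfl⟩ := QuotientGroup.mk_surjective g
    obtain ⟨x, rfl⟩ := QuotientGroup.mk_surjective x
    have h1 : ∀ y : Q, θ (QuotientGroup.mk y : Q ⧸ N).out = θ y := by
      intro y
      obtain ⟨n, hn⟩ := QuotientGroup.mk_out_eq_mul N y
      rw [hn, hinv y _ n.2]
    change θ (QuotientGroup.mk (x * g * x⁻¹) : Q ⧸ N).out = θ (QuotientGroup.mk g : Q ⧸ N).out
    rw [h1, h1, hθ.conj]
  nat U ψ _ := by
    obtain ⟨n, hn⟩ := hθ.nat (U.comap (QuotientGroup.mk' N)) (ψ.comp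
      { toFun := fun h => ⟨QuotientGroup.mk' N h, h.2⟩
        map_one' := by apply Subtype.ext; simp
        map_mul' := by intro a b; apply Subtype.ext; simp })
    refine ⟨n, ?_⟩
    rw [← hn, ← pr_quot hinv]
    congr 1
    exact ind_comap (π := QuotientGroup.mk' N) (QuotientGroup.mk'_surjective N) U
      (fun h => ((ψ h : ℂˣ) : ℂ))

/-- **Small growth over a normal subgroup on which the orders are constant.** -/
theorem const_up {l : (Q → ℂ) → ℂ → ℂ} {c : ℂ} (hθ : HA (theta (ords l c) : Q → ℂ))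
    {N : Subgroup Q} [N.Normal]
    (hK : ∀ k ∈ N, (theta (ords l c) : Q → ℂ) k = (theta (ords l c) : Q → ℂ) 1)
    (hs : Group.IsSolvable (Q ⧸ N)) (lam : (Q ⧸ N) →* ℂˣ) {a b : ℕ}
    (ha : (theta (ords l c) : Q → ℂ) 1 = a)
    (hb : pr (theta (ords l c) : Q → ℂ) (fun g => ((lam (QuotientGroup.mk g) : ℂˣ) : ℂ)) = b)
    (hab : ∀ p : ℕ, p.Prime → p ∣ Nat.card (Q ⧸ N) → a < b + p) :
    ∃ (K : Subgroup Q) (_ : K.Normal), AN (Q ⧸ K) ∧
      ∀ k ∈ K, (theta (ords l c) : Q → ℂ) k = (theta (ords l c) : Q → ℂ) 1 := by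
  set θ : Q → ℂ := theta (ords l c) with hθd
  have hinv : ∀ g, ∀ k ∈ N, θ (g * k) = θ g := fun g k hk => theta_inv hθ hK g hk
  have h1 : ∀ y : Q, θ (QuotientGroup.mk y : Q ⧸ N).out = θ y := by
    intro y
    obtain ⟨n, hn⟩ := QuotientGroup.mk_out_eq_mul N y
    rw [hn, hinv y _ n.2]
  have h2 := small _ (Q ⧸ N) rfl hs (fun q => θ q.out) (quot_HS hθ hinv) lam a b
    (by
      change θ (QuotientGroup.mk (1 : Q) : Q ⧸ N).out = a
      rw [h1, ha]) (by
      rw [← pr_quot hinv]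
      exact hb) hab
  refine ⟨(commutator (Q ⧸ N)).comap (QuotientGroup.mk' N), inferInstance, ?_, ?_⟩
  · refine an_of_comm (comm_quot _ ?_)
    rw [← Subgroup.map_le_iff_le_comap]
    rw [commutator_def, commutator_def, Subgroup.map_commutator]
    exact Subgroup.commutator_mono le_top le_top
  · intro k hk
    have h3 := h2 (QuotientGroup.mk k) hk
    change θ (QuotientGroup.mk k : Q ⧸ N).out = θ (QuotientGroup.mk (1 : Q) : Q ⧸ N).out at h3
    rwa [h1, h1] at h3

end Pool.Agent.U157.EC
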