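import Mathlib
import Pool.Agent.U213.EC.OverMain
import Pool.Agent.U157.EC.Grp

/-!
# CM elliptic curves: the abstract data of an extension `L / k`
-/

set_option autoImplicit false
set_option linter.unusedSectionVars false

open Filter Topology

namespace Pool.Agent.U157.EC

open Pool.Agent.R389 Pool.Agent.H302R2 Pool.Agent.H541R3.ART Pool.Agent.W446.AS
open Pool.Agent.U213.EC

variable {F₀ : Type} [Field F₀] [NumberField F₀] [IsGalois ℚ F₀]

/-- the abstract data -/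
structure Abs (D : Data F₀) (H : Subgroup D.G) {Q : Type} [Group Q] [Finite Q] (π : H →* Q)
    (E : Type) [Field E] [NumberField E] (ℓ : (Q → ℂ) → ℂ → ℂ) (P : (Q → ℂ) → ℂ) : Prop where
  mero : ∀ χ ∈ Irr Q, MeromorphicAt (ℓ χ) 1 ∧ meromorphicOrderAt (ℓ χ) 1 ≠ ⊤
  per : ∀ χ ∈ Irr Q, P χ ≠ 0
  isL : ∀ (f : Q → ℂ) (m : (Q → ℂ) → ℕ), IsDecomp f m →
    D.IsL (up H π f) (fun s => ∏ᶠ χ ∈ Irr Q, ℓ χ s ^ m χ)
  mon : ∀ (U : Subgroup Q) (ψ : U →* Eˣ),
    R389.Deligne (fun _ : E →+* ℂ => ℓ) (fun _ => P) 1 (ind U (fun u => ((ψ u : Eˣ) : E)))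
  del : ∀ (n : ℕ) (ρ : Q →* Matrix (Fin n) (Fin n) E) (m : ℕ) (σ : D.G →* Matrix (Fin m) (Fin m) E),
    (∀ g, (σ g).trace = up H π (fun q => (ρ q).trace) g) →
    (D.Deligne σ ↔ R389.Deligne (fun _ : E →+* ℂ => ℓ) (fun _ => P) 1 (fun q => (ρ q).trace))

theorem exists_abs (hM : MonomialTheorem) (D : Data F₀) (cm : D.CM) (H : Subgroup D.G) {Q : Type}
    [Group Q] [Finite Q] (π : H →* Q) (hπ : Function.Surjective π)
    (E : Type) [Field E] [NumberField E] (ζ : E) (hζ : IsPrimitiveRoot ζ (Monoid.exponent D.G)) :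
    ∃ (ζ' : E) (ℓ : (Q → ℂ) → ℂ → ℂ) (P : (Q → ℂ) → ℂ),
      IsPrimitiveRoot ζ' (Monoid.exponent Q) ∧ Abs D H π E ℓ P := by
  classical
  obtain ⟨τ₀⟩ : Nonempty (E →+* ℂ) := inferInstance
  have hex : ∀ χ ∈ Irr D.G, ∃ ℓ, D.IsL χ ℓ := fun χ hχ =>
    Data.exists_isL hζ τ₀ (fun U ψ n ρ hρ => hM _ D cm E U ψ n ρ hρ) (AddSubgroup.subset_closure hχ)
  choose! ℓ hℓ using hex
  have hmon : ∀ (U : Subgroup D.G) (ψ : U →* Eˣ),
      R389.Deligne (fun _ : E →+* ℂ => ℓ) (fun _ => D.P) 1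
        (ind U (fun u => ((ψ u : Eˣ) : E))) := by
    intro U ψ
    obtain ⟨n', ρ', hρ'⟩ := exists_induced U ψ
    have h4 := (Data.deligne_iff hζ hℓ ρ').mp (hM _ D cm E U ψ n' ρ' hρ')
    have h5 : (fun g => (ρ' g).trace) = ind U (fun u => ((ψ u : Eˣ) : E)) := funext hρ'
    rwa [h5] at h4
  have hMex : ∀ χ ∈ Irr Q, ∃ m, IsDecomp (up H π χ) m := fun χ hχ => up_decomp H π hχ
  choose! M hM' using hMex
  have hdvd : Monoid.exponent Q ∣ Monoid.exponent D.G := by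
    refine Monoid.exponent_dvd_of_forall_pow_eq_one fun q => ?_
    obtain ⟨x, rfl⟩ := hπ q
    rw [← map_pow]
    have : x ^ Monoid.exponent D.G = 1 := by
      apply Subtype.ext
      rw [Subgroup.coe_pow, Monoid.pow_exponent_eq_one]
      rfl
    rw [this, map_one]
  obtain ⟨a, ha⟩ := hdvd
  have hζ' : IsPrimitiveRoot (ζ ^ a) (Monoid.exponent Q) :=
    hζ.pow D.exp_pos (by rw [ha, mul_comm])
  refine ⟨ζ ^ a, fun χ s => ∏ᶠ η ∈ Irr D.G, ℓ η s ^ M χ η, fun χ => ∏ᶠ η ∈ Irr D.G, D.P η ^ M χ η,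
    hζ', ?_, ?_, ?_, ?_, ?_⟩
  · intro χ hχ
    have h4 := Data.isL_decomp hℓ (hM' χ hχ)
    exact ⟨h4.1 1, h4.order_ne 1⟩
  · intro χ hχ
    rw [finprod_irr (fun η => D.P η ^ M χ η)]
    exact Finset.prod_ne_zero_iff.mpr fun η hη => pow_ne_zero _ (D.P_ne (mem_irrF.mp hη))
  · exact fun f m hm => Data.order_up hℓ H π hM' hm
  · intro U ψ
    have h4 : ∀ τ : E →+* ℂ, ∃ m, IsDecomp (fun q => τ (ind U (fun u => ((ψ u : Eˣ) : E)) q)) m := by
      intro τ
      obtain ⟨m, hm⟩ := ind_isDecomp U ((Units.map τ.toMonoidHom).comp ψ)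
      refine ⟨m, ?_⟩
      have h5 : (fun q => τ (ind U (fun u => ((ψ u : Eˣ) : E)) q))
          = ind U (fun h => ((((Units.map τ.toMonoidHom).comp ψ) h : ℂˣ) : ℂ)) := by
        funext g
        rw [ind_map]
        rfl
      rw [h5]
      exact hm
    rw [← deligne_up H π hM' h4, up_indE H π hπ τ₀]
    exact hmon _ _
  · intro n ρ m σ hσ
    rw [Data.deligne_iff hζ hℓ]
    have h1 : (fun g => (σ g).trace) = up H π (fun q => (ρ q).trace) := funext hσ
    rw [h1]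
    have hdec : ∀ (τ : E →+* ℂ), ∃ m, IsDecomp (fun q => τ (ρ q).trace) m := by
      intro τ
      obtain ⟨m, hm⟩ := exists_decomp (bc τ ρ)
      have h2 : (fun q => (bc τ ρ q).trace) = fun q => τ (ρ q).trace :=
        funext fun q => bc_trace τ ρ q
      rw [h2] at hm
      exact ⟨m, hm⟩
    exact deligne_up H π hM' hdec

lemma bc_tr {E E' : Type} [Field E] [Field E'] (τ : E →+* E') {X : Type} [Group X] {l : ℕ}
    (r : X →* Matrix (Fin l) (Fin l) E) (x : X) :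
    ((τ.mapMatrix.toMonoidHom.comp r) x).trace = τ (r x).trace := by
  change ((r x).map τ).trace = _
  rw [Matrix.trace, Matrix.trace, map_sum]
  rfl

/-- the function of the orders is constant on `K` for all abstract data -/
def Const (D : Data F₀) (H : Subgroup D.G) {Q : Type} [Group Q] [Finite Q] (π : H →* Q)
    (K : Subgroup Q) : Prop :=
  ∀ (E : Type) [Field E] [NumberField E] (ζ : E), IsPrimitiveRoot ζ (Monoid.exponent Q) →
    ∀ (ℓ : (Q → ℂ) → ℂ → ℂ) (P : (Q → ℂ) → ℂ), Abs D H π E ℓ P →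
    ∀ k ∈ K, (theta (ords ℓ 1) : Q → ℂ) k = (theta (ords ℓ 1) : Q → ℂ) 1

variable {D : Data F₀} {H : Subgroup D.G} {Q : Type} [Group Q] [Finite Q] {π : H →* Q}

lemma Abs.ha {E : Type} [Field E] [NumberField E] {ℓ : (Q → ℂ) → ℂ → ℂ} {P : (Q → ℂ) → ℂ}
    (A : Abs D H π E ℓ P) {ζ : E} (hζ : IsPrimitiveRoot ζ (Monoid.exponent Q)) :
    HA (theta (ords ℓ 1) : Q → ℂ) := by
  obtain ⟨τ₀⟩ : Nonempty (E →+* ℂ) := inferInstance
  exact ha_ords (L := fun _ : E →+* ℂ => ℓ) (P := fun _ => P) (c := 1) hζ (fun _ => A.mero) A.mon τ₀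

/-- **All representations.** -/
theorem ec_all (hM : MonomialTheorem) (cm : D.CM) (hπ : Function.Surjective π)
    (hK : ∀ (E : Type) [Field E] [NumberField E] (ζ : E), IsPrimitiveRoot ζ (Monoid.exponent Q) →
      ∀ (ℓ : (Q → ℂ) → ℂ → ℂ) (P : (Q → ℂ) → ℂ), Abs D H π E ℓ P →
      ∃ (K : Subgroup Q) (_ : K.Normal), AN (Q ⧸ K) ∧
        ∀ k ∈ K, (theta (ords ℓ 1) : Q → ℂ) k = (theta (ords ℓ 1) : Q → ℂ) 1)
    (E : Type) [Field E] [NumberField E] (n : ℕ) (ρ : Q →* Matrix (Fin n) (Fin n) E)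
    (m : ℕ) (σ : D.G →* Matrix (Fin m) (Fin m) E)
    (hσ : ∀ g, (σ g).trace = ind H (fun h => (ρ (π h)).trace) g) : D.Deligne σ := by
  classical
  have : NeZero (Monoid.exponent D.G) := ⟨D.exp_pos.ne'⟩
  have hN : NumberField (CyclotomicField (Monoid.exponent D.G) E) :=
    IsCyclotomicExtension.numberField {Monoid.exponent D.G} E _
  let E' := CyclotomicField (Monoid.exponent D.G) E
  obtain ⟨ζ', ℓ, P, hζ', A⟩ := exists_abs hM D cm H π hπ E' _
    (IsCyclotomicExtension.zeta_spec (Monoid.exponent D.G) E _)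
  refine Data.deligne_descend (E' := E') σ ?_
  let ρ' : Q →* Matrix (Fin n) (Fin n) E' := (algebraMap E E').mapMatrix.toMonoidHom.comp ρ
  rw [A.del n ρ' m _ (fun g => by
    rw [bc_tr, hσ]
    have h1 : (fun q => (ρ' q).trace) = fun q => algebraMap E E' (ρ q).trace :=
      funext fun q => bc_tr _ ρ q
    rw [h1, ← up_map]
    rfl)]
  obtain ⟨K, hKn, hKa, hKc⟩ := hK E' ζ' hζ' ℓ P A
  obtain ⟨τ₀⟩ : Nonempty (E' →+* ℂ) := inferInstance
  have h3 := Pool.Agent.U157.DL.all_deligne (L := fun _ : E' →+* ℂ => ℓ) (P := fun _ => P) (c := 1)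
    hζ' (fun _ => A.mero) (fun _ => A.per) A.mon τ₀ K hKc (fun W _ _ _ σ hσ =>
      Pool.Agent.U157.DL.old_deligne hζ' (fun _ => A.mero) (fun _ => A.per) A.mon τ₀ K hKa σ hσ)
      (toRep ρ')
  have h4 : (toRep ρ').character = fun g => (ρ' g).trace := funext fun g => toRep_char ρ' g
  rwa [h4] at h3

/-- no fixed vectors after an extension of the field -/
lemma nofix {K : Subgroup Q} {E E' : Type} [Field E] [Field E'] [CharZero E] [CharZero E']
    (τ : E →+* E') {n : ℕ} (ρ : Q →* Matrix (Fin n) (Fin n) E)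
    (hρ : ∀ v : Fin n → E, (∀ k ∈ K, (ρ k).mulVec v = v) → v = 0)
    (v : Fin n → E') (hv : ∀ k ∈ K, ((τ.mapMatrix.toMonoidHom.comp ρ) k).mulVec v = v) : v = 0 := by
  classical
  have : Fintype K := Fintype.ofFinite K
  have h1 : ∑ k : K, ρ k = 0 := by
    apply Matrix.toLin'.injective
    refine LinearMap.ext fun w => ?_
    rw [map_zero, LinearMap.zero_apply]
    refine hρ _ fun h hh => ?_
    rw [Matrix.toLin'_apply, Matrix.mulVec_mulVec]
    congr 1
    rw [Finset.mul_sum]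
    refine Fintype.sum_equiv (Equiv.mulLeft (⟨h, hh⟩ : K)) _ _ fun k => ?_
    change ρ h * ρ k = ρ ((h : Q) * (k : Q))
    rw [map_mul]
  have h2 : ∑ k : K, (τ.mapMatrix.toMonoidHom.comp ρ) (k : Q) = 0 := by
    have h3 : ∑ k : K, (τ.mapMatrix.toMonoidHom.comp ρ) (k : Q) = τ.mapMatrix (∑ k : K, ρ k) := by
      rw [map_sum]
      rfl
    rw [h3, h1, map_zero]
  have h3 : (∑ k : K, (τ.mapMatrix.toMonoidHom.comp ρ) (k : Q)).mulVec v = (Nat.card K : E') • v := by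
    rw [Matrix.sum_mulVec, Finset.sum_congr rfl fun (k : K) _ => hv k k.2, Finset.sum_const,
      Finset.card_univ, ← Nat.card_eq_fintype_card, Nat.cast_smul_eq_nsmul]
  rw [h2, Matrix.zero_mulVec] at h3
  have h4 : (Nat.card K : E') ≠ 0 := by exact_mod_cast Nat.card_pos.ne'
  exact (smul_eq_zero.mp h3.symm).resolve_left h4

/-- **Representations without fixed vectors.** -/
theorem ec_new (hM : MonomialTheorem) (cm : D.CM) (hπ : Function.Surjective π)
    (K : Subgroup Q) [K.Normal] (hK : Const D H π K)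
    (E : Type) [Field E] [NumberField E] (n : ℕ) (ρ : Q →* Matrix (Fin n) (Fin n) E)
    (hρ : ∀ v : Fin n → E, (∀ k ∈ K, (ρ k).mulVec v = v) → v = 0)
    (m : ℕ) (σ : D.G →* Matrix (Fin m) (Fin m) E)
    (hσ : ∀ g, (σ g).trace = ind H (fun h => (ρ (π h)).trace) g) :
    D.Deligne σ ∧ ∀ (τ : E →+* ℂ) (ℓ : ℂ → ℂ), D.IsL (fun g => τ (σ g).trace) ℓ →
      meromorphicOrderAt ℓ 1 = 0 := by
  classical
  have : NeZero (Monoid.exponent D.G) := ⟨D.exp_pos.ne'⟩
  have hN : NumberField (CyclotomicField (Monoid.exponent D.G) E) :=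
    IsCyclotomicExtension.numberField {Monoid.exponent D.G} E _
  let E' := CyclotomicField (Monoid.exponent D.G) E
  obtain ⟨ζ', ℓ, P, hζ', A⟩ := exists_abs hM D cm H π hπ E' _
    (IsCyclotomicExtension.zeta_spec (Monoid.exponent D.G) E _)
  let ρ' : Q →* Matrix (Fin n) (Fin n) E' := (algebraMap E E').mapMatrix.toMonoidHom.comp ρ
  have h0 : (fun q => (ρ' q).trace) = fun q => algebraMap E E' (ρ q).trace :=
    funext fun q => bc_tr _ ρ q
  obtain ⟨τ₀⟩ : Nonempty (E' →+* ℂ) := inferInstance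
  have h4 : (toRep ρ').character = fun g => (ρ' g).trace := funext fun g => toRep_char ρ' g
  obtain ⟨e, he0, he⟩ := Pool.Agent.U157.DL.new_deligne (L := fun _ : E' →+* ℂ => ℓ)
    (P := fun _ => P) (c := 1) hζ' (fun _ => A.mero) (fun _ => A.per) A.mon τ₀ K
    (hK E' ζ' hζ' ℓ P A) (toRep ρ') (fun v hv => by
      refine nofix (algebraMap E E') ρ hρ v fun k hk => ?_
      have := hv k hk
      exact this)
  rw [h4] at he
  constructor
  · refine Data.deligne_descend (E' := E') σ ?_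
    rw [A.del n ρ' m _ (fun g => by
      rw [bc_tr, hσ, h0, ← up_map]
      rfl)]
    exact ⟨e, fun τ m hm => he τ m hm⟩
  · intro τ ℓ' hℓ'
    obtain ⟨τ', hτ'⟩ := Pool.Agent.U213.EC.extend (E' := E') τ
    obtain ⟨m', hm'⟩ := exists_decomp (bc τ' ρ')
    have h2 : (fun q => (bc τ' ρ' q).trace) = fun q => τ' (ρ' q).trace :=
      funext fun q => bc_trace τ' ρ' q
    rw [h2] at hm'
    have h5 := he τ' m' hm'
    have h6 := A.isL _ _ hm'
    have h7 : up H π (fun q => τ' (ρ' q).trace) = fun g => τ (σ g).trace := by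
      funext g
      rw [hσ]
      have h8 : (fun q => τ' (ρ' q).trace) = fun q => τ (ρ q).trace := by
        funext q
        have := congrFun h0 q
        beta_reduce at this
        rw [this, hτ']
      rw [h8, ← up_map]
      rfl
    rw [h7] at h6
    rw [meromorphicOrderAt_congr (hℓ'.unique h6 1)]
    have h8 : τ' e * ∏ᶠ χ ∈ Irr Q, P χ ^ m' χ ≠ 0 := by
      refine mul_ne_zero ((map_ne_zero τ').mpr he0) ?_
      rw [finprod_irr (fun χ => P χ ^ m' χ)]
      exact Finset.prod_ne_zero_iff.mpr fun χ hχ => pow_ne_zero _ (A.per χ (mem_irrF.mp hχ))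
    exact (tendsto_ne_zero_iff_meromorphicOrderAt_eq_zero (h6.1 1)).mp ⟨_, h8, h5⟩

end Pool.Agent.U157.EC
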