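import Mathlib
import Pool.Agent.U157.EC.Br

/-!
# CM elliptic curves: constancy of the orders
-/

set_option autoImplicit false
set_option linter.unusedSectionVars false

open Filter Topology

namespace Pool.Agent.U157.EC

open Pool.Agent.R389 Pool.Agent.H302R2 Pool.Agent.H541R3.ART Pool.Agent.W446.AS
open Pool.Agent.U213.EC

variable {F₀ : Type} [Field F₀] [NumberField F₀] [IsGalois ℚ F₀] {D : Data F₀} {H : Subgroup D.G}
  {Q : Type} [Group Q] [Finite Q] {π : H →* Q}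

lemma const_of_rigid (hπ : Function.Surjective π) {ℓ : ℂ → ℂ}
    (hℓ : D.IsL (ind (π.ker.map H.subtype) (fun _ => 1)) ℓ) {r : ℕ}
    (hr : meromorphicOrderAt ℓ 1 ≤ r) (N : Subgroup Q) (hN : Pool.Agent.Y788.V.RigidV r N) :
    Const D H π N := by
  intro E _ _ ζ hζ l P A
  obtain ⟨τ₀⟩ : Nonempty (E →+* ℂ) := inferInstance
  obtain ⟨deg, hdeg⟩ := exists_degQ (Q := Q)
  refine Pool.Agent.U157.DL.theta_const (L := fun _ : E →+* ℂ => l) (P := fun _ => P) (c := 1) hζ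
    (fun _ => A.mero) A.mon τ₀ hdeg (r := r) ?_ N hN
  have h3 := A.isL _ _ (regQ_decomp hdeg)
  rw [ker_eq H π hπ] at h3
  rw [meromorphicOrderAt_congr (h3.unique hℓ 1)]
  exact hr

open Classical in
/-- the decomposition of an irreducible character -/
lemma irr_isDecomp {f : Q → ℂ} (hf : f ∈ Irr Q) :
    IsDecomp f (fun χ => if χ = f then 1 else 0) := by
  refine IsDecomp.of_pr (fun g x => Irr.conj hf g x) fun χ hχ => ?_
  by_cases h : χ = f
  · rw [if_pos h, h, pr_self hf]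
    simp
  · rw [if_neg h, pr_ne hf hχ (Ne.symm h)]
    simp

/-- small growth over a normal subgroup on which the orders are constant -/
theorem small_up (hπ : Function.Surjective π) {N : Subgroup Q} [N.Normal] (hK : Const D H π N)
    {ℓ ℓ₁ : ℂ → ℂ} (hℓ : D.IsL (ind (π.ker.map H.subtype) (fun _ => 1)) ℓ)
    (hs : Group.IsSolvable (Q ⧸ N)) (lam : (Q ⧸ N) →* ℂˣ)
    (hℓ₁ : D.IsL (ind H (fun h => ((lam (QuotientGroup.mk (π h)) : ℂˣ) : ℂ))) ℓ₁)
    (hz : ∀ p : ℕ, p.Prime → p ∣ Nat.card (Q ⧸ N) →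
      meromorphicOrderAt ℓ 1 < meromorphicOrderAt ℓ₁ 1 + p)
    (E : Type) [Field E] [NumberField E] (ζ : E) (hζ : IsPrimitiveRoot ζ (Monoid.exponent Q))
    (l : (Q → ℂ) → ℂ → ℂ) (P : (Q → ℂ) → ℂ) (A : Abs D H π E l P) :
    ∃ (K : Subgroup Q) (_ : K.Normal), AN (Q ⧸ K) ∧
      ∀ k ∈ K, (theta (ords l 1) : Q → ℂ) k = (theta (ords l 1) : Q → ℂ) 1 := by
  classical
  obtain ⟨τ₀⟩ : Nonempty (E →+* ℂ) := inferInstance
  obtain ⟨deg, hdeg⟩ := exists_degQ (Q := Q)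
  have hθ := A.ha hζ
  have hh : HH (theta (ords l 1) : Q → ℂ) := ⟨hθ.conj, fun U ψ _ => hθ.nat U ψ⟩
  obtain ⟨a, ha⟩ := hh.deg
  -- the order over `L`
  have hone := theta_one_eq (c := (1 : ℂ)) (l := l) hdeg
  have htop := top_order (c := (1 : ℂ)) A.mero deg
  have ha' : (∑ χ ∈ irrF Q, (deg χ : ℤ) * ords l 1 χ) = (a : ℤ) := by
    rw [ha] at hone
    exact_mod_cast hone.symm
  have h3 := A.isL _ _ (regQ_decomp hdeg)
  rw [ker_eq H π hπ] at h3
  have hoa : meromorphicOrderAt ℓ 1 = ((a : ℤ) : WithTop ℤ) := by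
    rw [← meromorphicOrderAt_congr (h3.unique hℓ 1), htop, ha']
  -- the order of the twist by `lam`
  let ψ : Q →* ℂˣ := lam.comp (QuotientGroup.mk' N)
  have hf : (fun g => ((lam (QuotientGroup.mk g) : ℂˣ) : ℂ)) ∈ Irr Q := lin_irr ψ
  obtain ⟨b, hb⟩ := hθ.lin ψ
  have h4 := A.isL _ _ (irr_isDecomp hf)
  obtain ⟨z, hz1, hz2⟩ := order_eq_pr (L := fun _ : E →+* ℂ => l) (c := 1) (fun _ => A.mero) τ₀
    (irr_isDecomp hf)
  have hzb : z = b := by
    have h5 : (z : ℂ) = ((b : ℤ) : ℂ) := by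
      rw [← hz2]
      have h6 : pr (theta (ords l 1) : Q → ℂ) (lc ψ) = b := hb
      push_cast
      exact h6
    exact_mod_cast h5
  have hob : meromorphicOrderAt ℓ₁ 1 = ((b : ℤ) : WithTop ℤ) := by
    rw [← meromorphicOrderAt_congr (h4.unique hℓ₁ 1), hz1, hzb]
  refine const_up hθ (hK E ζ hζ l P A) hs lam ha hb fun p hp hd => ?_
  have h5 := hz p hp hd
  rw [hoa, hob] at h5
  have h6 : (a : ℤ) < (b : ℤ) + (p : ℤ) := by exact_mod_cast h5
  exact_mod_cast h6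

end Pool.Agent.U157.EC
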