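import Mathlib
import Pool.Agent.U157.EC.Sm

/-!
# CM elliptic curves: the characters with a zero
-/

set_option autoImplicit false
set_option linter.unusedSectionVars false

open Filter Topology

namespace Pool.Agent.U157.EC

open Pool.Agent.R389 Pool.Agent.H302R2 Pool.Agent.H541R3.ART Pool.Agent.W446.AS
open Pool.Agent.U213.EC

variable {F₀ : Type} [Field F₀] [NumberField F₀] [IsGalois ℚ F₀] {D : Data F₀} {H : Subgroup D.G}
  {Q : Type} [Group Q] [Finite Q] {π : H →* Q}

lemma Abs.isL_irr {E : Type} [Field E] [NumberField E] {l : (Q → ℂ) → ℂ → ℂ} {P : (Q → ℂ) → ℂ}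
    (A : Abs D H π E l P) {χ : Q → ℂ} (hχ : χ ∈ Irr Q) : D.IsL (up H π χ) (l χ) := by
  classical
  have h1 := A.isL _ _ (irr_isDecomp hχ)
  have h2 : (fun s => ∏ᶠ η ∈ Irr Q, l η s ^ (if η = χ then 1 else 0)) = l χ := by
    funext s
    rw [finprod_irr (fun η => l η s ^ (if η = χ then 1 else 0))]
    have h3 : ∀ η ∈ irrF Q, l η s ^ (if η = χ then 1 else 0) = if η = χ then l η s else 1 := by
      intro η _
      split_ifs
      · rw [pow_one]
      · rw [pow_zero]
    rw [Finset.prod_congr rfl h3, Finset.prod_ite_eq' (irrF Q) χ, if_pos (mem_irrF.mpr hχ)]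
  rwa [h2] at h1

/-- the irreducible characters with a zero or a pole are trivial on `K` -/
lemma const_of_special {K : Subgroup Q}
    (h : ∀ χ ∈ Irr Q, (∃ ℓ : ℂ → ℂ, D.IsL (ind H (fun h => χ (π h))) ℓ ∧ meromorphicOrderAt ℓ 1 ≠ 0) →
      ∀ k ∈ K, χ k = χ 1) : Const D H π K := by
  intro E _ _ ζ hζ l P A
  exact Pool.Agent.U157.DL.theta_of_kernel (l := l) (c := 1) K
    (fun χ hχ h0 => h χ hχ ⟨l χ, A.isL_irr hχ, h0⟩)

end Pool.Agent.U157.EC
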