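import Mathlib
import Pool.Agent.U213.EC.Gauss
import Pool.Agent.U157.EC.An
import Pool.Agent.U157.DL.Rig

/-!
# CM elliptic curves: twists of the rational representations by even characters
-/

set_option autoImplicit false
set_option linter.unusedSectionVars false

open Filter Topology

namespace Pool.Agent.U157.EC

open Pool.Agent.R389 Pool.Agent.H302R2 Pool.Agent.H541R3.ART Pool.Agent.W446.AS
open Pool.Agent.U213.EC

variable {F₀ : Type} [Field F₀] [NumberField F₀] [IsGalois ℚ F₀] (D : Data F₀)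

lemma tw_ind (H : Subgroup D.G) {Q : Type} [Group Q] (π : H →* Q)
    (n : ℕ) (ρ : Q →* Matrix (Fin n) (Fin n) ℚ) (m : ℕ) (σ : D.G →* Matrix (Fin m) (Fin m) ℚ)
    (hσ : ∀ g, (σ g).trace = ind H (fun h => (ρ (π h)).trace) g)
    (E : Type) [Field E] [NumberField E] (ψ : D.G →* Eˣ) (ψQ : Q →* Eˣ)
    (hψ : ∀ h : H, ψ h = ψQ (π h)) (g : D.G) :
    (tw σ ψ g).trace = ind H (fun h => (tw ρ ψQ (π h)).trace) g := by
  have h1 : (fun h : H => (tw ρ ψQ (π h)).trace)
      = fun h : H => algebraMap ℚ E (ρ (π h)).trace * (fun g => ((ψ g : Eˣ) : E)) (h : D.G) := by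
    funext h
    rw [tw_trace, ← hψ h, mul_comm]
  rw [tw_trace, h1, ind_mul H _ (F := fun g => ((ψ g : Eˣ) : E)) ?_ g, hσ, mul_comm]
  · congr 1
    exact ind_map (algebraMap ℚ E) H _ g
  · intro g x
    change ((ψ (x * g * x⁻¹) : Eˣ) : E) = ((ψ g : Eˣ) : E)
    rw [map_mul, map_mul, map_inv, mul_comm, ← mul_assoc, inv_mul_cancel, one_mul]

theorem twisted_of (m : ℕ) (σ : D.G →* Matrix (Fin m) (Fin m) ℚ)
    (E : Type) [Field E] [NumberField E] (ψ : D.G →* Eˣ) (hc : ψ D.c = 1)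
    (hD : D.Deligne (tw σ ψ)) :
    ∃ e : E, ∀ τ : E →+* ℂ, ∃ ℓ : ℂ → ℂ,
      D.IsL (fun g => τ ((ψ g : Eˣ) : E) * (((σ g).trace : ℚ) : ℂ)) ℓ ∧
      Tendsto ℓ (𝓝[≠] 1) (𝓝 (τ e * (D.R (fun g => τ ((ψ g : Eˣ) : E)) ^ m *
        D.period ((algebraMap ℚ ℂ).mapMatrix.toMonoidHom.comp σ)))) := by
  classical
  obtain ⟨e, he⟩ := hD
  -- the resolvents
  let dσ : D.G →* Eˣ := (Matrix.detMonoidHom.comp
    ((algebraMap ℚ E).mapMatrix.toMonoidHom.comp σ)).toHomUnits
  have hdσ : ∀ g, ((dσ g : Eˣ) : E) = algebraMap ℚ E (σ g).det := by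
    intro g
    change ((σ g).map (algebraMap ℚ E)).det = _
    exact (RingHom.map_det (algebraMap ℚ E) (σ g)).symm
  let δ : D.G →* Eˣ := ψ ^ m * dσ
  have hx : ∀ mu : (F₀ ≃ₐ[ℚ] F₀) →* ℂˣ, ∑ σ, (mu σ : ℂ) * D.ι (σ D.x) ≠ 0 := by
    intro mu
    have := D.x_ne mu
    rwa [finsum_eq_sum_of_fintype] at this
  obtain ⟨u, hu0, hu⟩ := prod_res D.ι D.x hx (Finset.univ : Finset Bool)
    (fun i => cond i ψ dσ) (fun i => cond i m 1) δ (fun g => by
      rw [Fintype.prod_bool]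
      change ψ g ^ m * dσ g ^ 1 = (ψ ^ m * dσ) g
      rw [pow_one, MonoidHom.mul_apply, MonoidHom.pow_apply])
  refine ⟨e / u, fun τ => ?_⟩
  obtain ⟨ℓ, h1, h3⟩ := he τ
  refine ⟨ℓ, ?_, ?_⟩
  · have h4 : (fun g => τ (tw σ ψ g).trace)
        = fun g => τ ((ψ g : Eˣ) : E) * (((σ g).trace : ℚ) : ℂ) := by
      funext g
      rw [tw_trace, map_mul]
      congr 1
      simp
    rwa [h4] at h1
  · have h4 : τ e * D.period (τ.mapMatrix.toMonoidHom.comp (tw σ ψ))
        = τ (e / u) * (D.R (fun g => τ ((ψ g : Eˣ) : E)) ^ m *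
          D.period ((algebraMap ℚ ℂ).mapMatrix.toMonoidHom.comp σ)) := by
      have h5 := hu τ
      rw [Fintype.prod_bool] at h5
      change (∑ σ, τ ((ψ σ : Eˣ) : E) * D.ι (σ D.x)) ^ m *
        (∑ σ, τ ((dσ σ : Eˣ) : E) * D.ι (σ D.x)) ^ 1
        = τ u * ∑ σ, τ ((δ σ : Eˣ) : E) * D.ι (σ D.x) at h5
      have h6 : D.R (fun g => ((τ.mapMatrix.toMonoidHom.comp (tw σ ψ)) g).det)
          = ∑ g, τ ((δ g : Eˣ) : E) * D.ι (g D.x) := by
        rw [Data.R_eq]
        refine Finset.sum_congr rfl fun g _ => ?_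
        congr 1
        change (bc τ (tw σ ψ) g).det = _
        rw [bc_det, tw_det]
        congr 1
        change _ = (((ψ ^ m * dσ) g : Eˣ) : E)
        rw [MonoidHom.mul_apply, MonoidHom.pow_apply, Units.val_mul, Units.val_pow_eq_pow_val, hdσ]
      have h7 : D.R (fun g => (((algebraMap ℚ ℂ).mapMatrix.toMonoidHom.comp σ) g).det)
          = ∑ g, τ ((dσ g : Eˣ) : E) * D.ι (g D.x) := by
        rw [Data.R_eq]
        refine Finset.sum_congr rfl fun g _ => ?_
        congr 1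
        change (bc (algebraMap ℚ ℂ) σ g).det = _
        rw [bc_det, hdσ]
        simp
      have h8 : (τ.mapMatrix.toMonoidHom.comp (tw σ ψ)) D.c
          = ((algebraMap ℚ ℂ).mapMatrix.toMonoidHom.comp σ) D.c := by
        ext i j
        change τ (((ψ D.c : Eˣ) : E) * algebraMap ℚ E (σ D.c i j)) = algebraMap ℚ ℂ (σ D.c i j)
        rw [hc, Units.val_one, one_mul]
        simp
      rw [Data.period, Data.period, h6, h7, h8, map_div₀, Data.R_eq]
      have hu' : τ u ≠ 0 := (map_ne_zero τ).mpr hu0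
      rw [pow_one] at h5
      rw [div_mul_eq_mul_div, eq_div_iff hu']
      linear_combination (-(τ e * D.Ωp ^ Polynomial.rootMultiplicity 1
        (((algebraMap ℚ ℂ).mapMatrix.toMonoidHom.comp σ) D.c).charpoly *
        D.Ωm ^ Polynomial.rootMultiplicity (-1)
        (((algebraMap ℚ ℂ).mapMatrix.toMonoidHom.comp σ) D.c).charpoly)) * h5
    rw [h4] at h3
    exact h3

/-- From Deligne's conjecture for `σ ⊗ ψ` to the form with Gauss sums. -/
theorem gauss_of (m : ℕ) (σ : D.G →* Matrix (Fin m) (Fin m) ℚ)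
    {f : ℕ} (hf : f ≠ 0) {ζ : F₀} (hζ : D.ι ζ = Complex.exp (2 * Real.pi * Complex.I / f))
    (E : Type) [Field E] [NumberField E] (χ : (ZMod f)ˣ →* Eˣ) (ψ : D.G →* Eˣ)
    (h : ∀ (g : D.G) (u : (ZMod f)ˣ), g ζ = ζ ^ (u : ZMod f).val → ψ g = χ u)
    (hc : ψ D.c = 1) (hD : D.Deligne (tw σ ψ)) :
    ∃ e : E, ∀ τ : E →+* ℂ, ∃ ℓ : ℂ → ℂ,
      D.IsL (fun g => τ ((ψ g : Eˣ) : E) * (((σ g).trace : ℚ) : ℂ)) ℓ ∧
      Tendsto (fun s => gaussSum' f (fun a => τ (((χ a)⁻¹ : Eˣ) : E)) ^ m * ℓ s /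
        D.period ((algebraMap ℚ ℂ).mapMatrix.toMonoidHom.comp σ)) (𝓝[≠] 1) (𝓝 (τ e)) := by
  obtain ⟨e, he⟩ := twisted_of D m σ E ψ hc hD
  obtain ⟨N, hN, hg⟩ := D.gauss_eq hf hζ χ ψ h
  have hN' : (N : ℂ) ^ m ≠ 0 := pow_ne_zero _ (Nat.cast_ne_zero.mpr hN)
  refine ⟨e * (∑ k : D.G, ((ψ k : Eˣ) : E) *
    algebraMap ℚ E (Algebra.trace ℚ F₀ (D.x * k⁻¹ ζ))) ^ m / N ^ m, fun τ => ?_⟩
  obtain ⟨ℓ, h1, h3⟩ := he τ
  refine ⟨ℓ, h1, ?_⟩
  have h4 := ((h3.const_mul ((∑ᶠ g : D.G, τ (((ψ g)⁻¹ : Eˣ) : E) * D.ι (g ζ)) ^ m)).div_const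
    (D.period ((algebraMap ℚ ℂ).mapMatrix.toMonoidHom.comp σ))).div_const ((N : ℂ) ^ m)
  have h5 : (∑ᶠ g : D.G, τ (((ψ g)⁻¹ : Eˣ) : E) * D.ι (g ζ)) ^ m *
      (τ e * (D.R (fun g => τ ((ψ g : Eˣ) : E)) ^ m *
        D.period ((algebraMap ℚ ℂ).mapMatrix.toMonoidHom.comp σ))) /
        D.period ((algebraMap ℚ ℂ).mapMatrix.toMonoidHom.comp σ)
      = τ (e * (∑ k : D.G, ((ψ k : Eˣ) : E) *
        algebraMap ℚ E (Algebra.trace ℚ F₀ (D.x * k⁻¹ ζ))) ^ m) := by
    rw [map_mul, map_pow, ← D.res_mul_gauss ζ ψ τ, finsum_eq_sum_of_fintype, mul_pow,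
      ← mul_assoc, ← mul_assoc, mul_div_assoc,
      div_self (D.period_ne ((algebraMap ℚ ℂ).mapMatrix.toMonoidHom.comp σ))]
    ring
  rw [h5] at h4
  rw [map_div₀, map_pow, map_natCast]
  refine h4.congr fun s => ?_
  rw [hg τ, mul_pow, div_div, mul_comm (D.period _), ← div_div]
  congr 1
  rw [mul_assoc, mul_div_assoc, mul_comm, div_mul_cancel₀ _ hN']

/-- a subgroup of the product of a symmetric group and an abelian group -/
lemma prod_setup {G : Type} [Group G] [Finite G] {n j r : ℕ} (hn : 5 ≤ n) (hj : 2 ≤ j)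
    (hlt : r < (2 ^ j - 1) * (n / 2 ^ j))
    (f : G →* Equiv.Perm (Fin n)) {B : Type} [CommGroup B] (g : G →* B)
    (hf : ∀ x, f x = 1 → g x = 1 → x = 1) (hA : alternatingGroup (Fin n) ≤ f.range) :
    Pool.Agent.Y788.V.RigidV r (commutator G) ∧ AN (G ⧸ commutator G) := by
  classical
  have hle : ∀ x ∈ commutator G, f x ∈ alternatingGroup (Fin n) ∧ g x = 1 := by
    intro x hx
    have h1 : commutator G ≤ (Equiv.Perm.sign.comp f).ker :=
      Abelianization.commutator_subset_ker _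
    have h2 : commutator G ≤ g.ker := Abelianization.commutator_subset_ker _
    exact ⟨Equiv.Perm.mem_alternatingGroup.mpr (h1 hx), h2 hx⟩
  constructor
  · let q : commutator G →* alternatingGroup (Fin n) :=
      { toFun := fun u => ⟨f u, (hle u u.2).1⟩
        map_one' := Subtype.ext (map_one f)
        map_mul' := fun a b => Subtype.ext (map_mul f _ _) }
    have hq : Function.Bijective q := by
      constructor
      · rw [injective_iff_map_eq_one]
        intro a ha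
        exact Subtype.ext (hf a (congrArg Subtype.val ha) (hle a a.2).2)
      · rintro ⟨y, hy⟩
        have h1 : commutator (alternatingGroup (Fin n)) = ⊤ := by
          exact commutator_alternatingGroup_eq_top (by simpa using hn)
        have h2 : ⁅alternatingGroup (Fin n), alternatingGroup (Fin n)⁆
            = alternatingGroup (Fin n) := by
          have h3 := congrArg (Subgroup.map (alternatingGroup (Fin n)).subtype) h1
          rw [commutator_def, Subgroup.map_commutator, ← MonoidHom.range_eq_map,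
            Subgroup.range_subtype] at h3
          exact h3
        have h4 : alternatingGroup (Fin n) ≤ (commutator G).map f := by
          rw [commutator_def, Subgroup.map_commutator, ← MonoidHom.range_eq_map]
          rw [← h2]
          exact Subgroup.commutator_mono (h2 ▸ hA) (h2 ▸ hA)
        obtain ⟨x, hx, hxy⟩ := h4 hy
        exact ⟨⟨x, hx⟩, Subtype.ext hxy⟩
    exact (Pool.Agent.U157.DL.alt_rigid hn hj hlt).congr (MulEquiv.ofBijective q hq).symm
  · refine an_of_comm ?_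
    intro a b
    obtain ⟨x, rfl⟩ := QuotientGroup.mk_surjective a
    obtain ⟨y, rfl⟩ := QuotientGroup.mk_surjective b
    rw [← QuotientGroup.mk_mul, ← QuotientGroup.mk_mul, QuotientGroup.eq]
    rw [← Abelianization.ker_of, MonoidHom.mem_ker, map_mul, map_inv, map_mul, map_mul,
      mul_comm (Abelianization.of y)]
    exact inv_mul_cancel _

end Pool.Agent.U157.EC
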