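import Mathlib
import Pool.Agent.U157.EC.Tw
import Pool.Agent.U157.EC.Sm
import Pool.Agent.N855.AF.Main

/-!
# Twists without fixed vectors of a perfect normal subgroup
-/

set_option autoImplicit false
set_option linter.unusedSectionVars false

namespace Pool.Agent.U157.EC

open Pool.Agent.R389 Pool.Agent.H302R2 Pool.Agent.H541R3.ART Pool.Agent.W446.AS
open Pool.Agent.U213.EC

lemma perfect_one {Q : Type} [Group Q] {N : Subgroup Q} (hN : Group.IsPerfect N) {A : Type}
    [CommGroup A] (f : Q →* A) : ∀ k ∈ N, f k = 1 := by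
  intro k hk
  have h1 : commutator N ≤ (f.comp N.subtype).ker := Abelianization.commutator_subset_ker _
  have h2 : (⟨k, hk⟩ : N) ∈ commutator N := by
    rw [hN.commutator_eq_top]
    trivial
  exact h1 h2

lemma no_fixed {Q : Type} [Group Q] {N : Subgroup Q} {n : ℕ}
    (ρ : Q →* Matrix (Fin n) (Fin n) ℚ)
    (hρ : ∀ v : Fin n → ℚ, (∀ k ∈ N, (ρ k).mulVec v = v) → v = 0)
    {E : Type} [Field E] [NumberField E] (ψ : Q →* Eˣ) (hψ : ∀ k ∈ N, ψ k = 1) :
    ∀ v : Fin n → E, (∀ k ∈ N, (tw ρ ψ k).mulVec v = v) → v = 0 := by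
  intro v hv
  by_contra hne
  obtain ⟨i, hi⟩ := Function.ne_iff.mp hne
  obtain ⟨φ, hφ⟩ : ∃ φ : E →ₗ[ℚ] ℚ, φ (v i) ≠ 0 := by
    by_contra h
    push Not at h
    exact hi ((Module.forall_dual_apply_eq_zero_iff ℚ (v i)).mp h)
  have h1 := hρ (fun j => φ (v j)) fun k hk => by
    have h2 := hv k hk
    funext j
    have h3 := congrFun h2 j
    have h4 : ((tw ρ ψ k).mulVec v) j = ∑ l, algebraMap ℚ E (ρ k j l) * v l := by
      change (((ψ k : Eˣ) : E) • (ρ k).map (algebraMap ℚ E)).mulVec v j = _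
      rw [hψ k hk, Units.val_one, one_smul]
      rfl
    rw [h4] at h3
    rw [← h3, map_sum]
    change ∑ l, ρ k j l * φ (v l) = _
    refine Finset.sum_congr rfl fun l _ => ?_
    rw [← Algebra.smul_def, map_smul, smul_eq_mul]
  exact hφ (congrFun h1 i)

end Pool.Agent.U157.EC
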