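import Mathlib
import Pool.Agent.U157.EC.An
import Pool.Agent.U157.DL.RatAny

/-!
# CM elliptic curves: rational representations
-/

set_option autoImplicit false
set_option linter.unusedSectionVars false

open Filter Topology

namespace Pool.Agent.U157.EC

open Pool.Agent.R389 Pool.Agent.H302R2 Pool.Agent.H541R3.ART Pool.Agent.W446.AS
open Pool.Agent.U213.EC

variable {F₀ : Type} [Field F₀] [NumberField F₀] [IsGalois ℚ F₀] {D : Data F₀} {H : Subgroup D.G}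
  {Q : Type} [Group Q] [Finite Q] {π : H →* Q}

/-- the order of the twist by an irreducible character -/
lemma Abs.order_irr {E : Type} [Field E] [NumberField E] {l : (Q → ℂ) → ℂ → ℂ} {P : (Q → ℂ) → ℂ}
    (A : Abs D H π E l P) {χ : Q → ℂ} (hχ : χ ∈ Irr Q) {ℓ : ℂ → ℂ}
    (hℓ : D.IsL (ind H (fun h => χ (π h))) ℓ) : meromorphicOrderAt ℓ 1 = meromorphicOrderAt (l χ) 1 :=
  meromorphicOrderAt_congr (hℓ.unique (A.isL_irr hχ) 1)

/-- from the abstract form to the conjecture for a given representation -/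
theorem gen_bridge (hM : MonomialTheorem) (cm : D.CM) (hπ : Function.Surjective π)
    (E₀ : Type) [Field E₀] [NumberField E₀] (n : ℕ) (ρ : Q →* Matrix (Fin n) (Fin n) E₀)
    (m : ℕ) (σ : D.G →* Matrix (Fin m) (Fin m) E₀)
    (hσ : ∀ g, (σ g).trace = ind H (fun h => (ρ (π h)).trace) g)
    (h : ∀ (E : Type) [Field E] [NumberField E] [Algebra E₀ E] (ζ : E),
      IsPrimitiveRoot ζ (Monoid.exponent Q) →
      ∀ (ℓ : (Q → ℂ) → ℂ → ℂ) (P : (Q → ℂ) → ℂ), Abs D H π E ℓ P →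
      R389.Deligne (fun _ : E →+* ℂ => ℓ) (fun _ => P) 1
        (fun q => algebraMap E₀ E (ρ q).trace)) : D.Deligne σ := by
  classical
  have : NeZero (Monoid.exponent D.G) := ⟨D.exp_pos.ne'⟩
  have hN : NumberField (CyclotomicField (Monoid.exponent D.G) E₀) :=
    IsCyclotomicExtension.numberField {Monoid.exponent D.G} E₀ _
  let E' := CyclotomicField (Monoid.exponent D.G) E₀
  obtain ⟨ζ', ℓ, P, hζ', A⟩ := exists_abs hM D cm H π hπ E' _
    (IsCyclotomicExtension.zeta_spec (Monoid.exponent D.G) E₀ _)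
  refine Data.deligne_descend (E' := E') σ ?_
  let ρ' : Q →* Matrix (Fin n) (Fin n) E' := (algebraMap E₀ E').mapMatrix.toMonoidHom.comp ρ
  have h1 : (fun q => (ρ' q).trace) = fun q => algebraMap E₀ E' (ρ q).trace :=
    funext fun q => bc_tr _ ρ q
  rw [A.del n ρ' m _ (fun g => by
    rw [bc_tr, hσ, h1, ← up_map]
    rfl)]
  have h2 := h E' ζ' hζ' ℓ P A
  rwa [← h1] at h2

/-- from the abstract form to the conjecture for a rational representation -/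
theorem rat_bridge (hM : MonomialTheorem) (cm : D.CM) (hπ : Function.Surjective π)
    (n : ℕ) (ρ : Q →* Matrix (Fin n) (Fin n) ℚ)
    (m : ℕ) (σ : D.G →* Matrix (Fin m) (Fin m) ℚ)
    (hσ : ∀ g, (σ g).trace = ind H (fun h => (ρ (π h)).trace) g)
    (h : ∀ (E : Type) [Field E] [NumberField E] (ζ : E), IsPrimitiveRoot ζ (Monoid.exponent Q) →
      ∀ (ℓ : (Q → ℂ) → ℂ → ℂ) (P : (Q → ℂ) → ℂ), Abs D H π E ℓ P →
      R389.Deligne (fun _ : E →+* ℂ => ℓ) (fun _ => P) 1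
        (fun q => algebraMap ℚ E ((toRep ρ).character q))) : D.Deligne σ := by
  refine gen_bridge hM cm hπ ℚ n ρ m σ hσ fun E _ _ _ ζ hζ ℓ P A => ?_
  have h2 := h E ζ hζ ℓ P A
  convert h2 using 2 with q
  rw [toRep_char, eq_ratCast, eq_ratCast]

/-- the character of the induced representation -/
lemma up_cch {n : ℕ} (ρ : Q →* Matrix (Fin n) (Fin n) ℚ) {m : ℕ}
    (σ : D.G →* Matrix (Fin m) (Fin m) ℚ)
    (hσ : ∀ g, (σ g).trace = ind H (fun h => (ρ (π h)).trace) g) :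
    up H π (cch (toRep ρ)) = fun g => (((σ g).trace : ℚ) : ℂ) := by
  funext g
  have h1 : cch (toRep ρ) = fun q => algebraMap ℚ ℂ ((ρ q).trace) := by
    funext q
    change (((toRep ρ).character q : ℚ) : ℂ) = _
    rw [toRep_char]
    rfl
  rw [h1, ← up_map]
  have h2 : up H π (fun q => (ρ q).trace) g = (σ g).trace := (hσ g).symm
  rw [h2]
  rfl

/-- **Orders with a common divisor.** -/
theorem rat_div (hM : MonomialTheorem) (cm : D.CM) (hπ : Function.Surjective π)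
    {ℓ₀ : ℂ → ℂ} (hℓ₀ : D.IsL (ind (π.ker.map H.subtype) (fun _ => 1)) ℓ₀)
    {d : ℕ} (hd : d ≠ 0)
    (hk : ∀ χ ∈ Irr Q, ∀ ℓ, D.IsL (ind H (fun h => χ (π h))) ℓ →
      ∃ k : ℤ, meromorphicOrderAt ℓ 1 = (((d : ℤ) * k : ℤ) : WithTop ℤ))
    (hz : meromorphicOrderAt ℓ₀ 1 < (((d : ℤ) * 3 : ℤ) : WithTop ℤ))
    (n : ℕ) (ρ : Q →* Matrix (Fin n) (Fin n) ℚ)
    (m : ℕ) (σ : D.G →* Matrix (Fin m) (Fin m) ℚ)
    (hσ : ∀ g, (σ g).trace = ind H (fun h => (ρ (π h)).trace) g)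
    (hpole : ∀ ℓ, D.IsL (fun g => (((σ g).trace : ℚ) : ℂ)) ℓ → 0 ≤ meromorphicOrderAt ℓ 1) :
    D.Deligne σ := by
  classical
  refine rat_bridge hM cm hπ n ρ m σ hσ fun E _ _ ζ hζ l P A => ?_
  obtain ⟨deg, hdeg⟩ := exists_degQ (Q := Q)
  obtain ⟨τ₀⟩ : Nonempty (E →+* ℂ) := inferInstance
  have hθ := Pool.Agent.R389.heil_ords (L := fun _ : E →+* ℂ => l) (P := fun _ => P) (c := 1) hζ
    (fun _ => A.mero) A.mon τ₀
  obtain ⟨η, hV, hη⟩ := Pool.Agent.U157.DL.exists_div (ℓ := l) (c := 1) (d := d) fun χ hχ => by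
    obtain ⟨k, hk'⟩ := hk χ hχ _ (A.isL_irr hχ)
    exact ⟨k, hk'⟩
  obtain ⟨r, hr, hr3⟩ := Pool.Agent.U157.DL.div_one (ℓ := l) (b := 3) A.mero hdeg hθ hd hV hη (by
    have h3 := A.isL _ _ (regQ_decomp hdeg)
    rw [ker_eq H π hπ] at h3
    rw [meromorphicOrderAt_congr (h3.unique hℓ₀ 1)]
    exact hz)
  obtain ⟨μ, hμ⟩ := exists_decomp (bc (algebraMap ℚ ℂ) ρ)
  have hμ' : IsDecomp (cch (toRep ρ)) μ := by
    have h1 : (fun q => (bc (algebraMap ℚ ℂ) ρ q).trace) = cch (toRep ρ) := by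
      funext q
      rw [bc_trace]
      change _ = (((toRep ρ).character q : ℚ) : ℂ)
      rw [toRep_char]
      rfl
    rwa [h1] at hμ
  refine Pool.Agent.U157.DL.main_rat_div (P := fun _ => P) hζ A.mero (fun _ => A.per) A.mon hV hd hη
    hr (by omega) (toRep ρ) hμ' ?_
  have h2 := A.isL _ _ hμ'
  rw [up_cch ρ σ hσ] at h2
  exact hpole _ h2

/-- **The degrees of the characters with a zero add up to at most two.** -/
theorem rat_reduced (hM : MonomialTheorem) (cm : D.CM) (hπ : Function.Surjective π)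
    {deg : (Q → ℂ) → ℕ} (hdeg : ∀ χ ∈ Irr Q, χ 1 = deg χ)
    (hs : ∑ᶠ χ ∈ {χ : Q → ℂ | χ ∈ Irr Q ∧ ∃ ℓ : ℂ → ℂ,
      D.IsL (ind H (fun h => χ (π h))) ℓ ∧ meromorphicOrderAt ℓ 1 ≠ 0}, deg χ ≤ 2)
    (n : ℕ) (ρ : Q →* Matrix (Fin n) (Fin n) ℚ)
    (m : ℕ) (σ : D.G →* Matrix (Fin m) (Fin m) ℚ)
    (hσ : ∀ g, (σ g).trace = ind H (fun h => (ρ (π h)).trace) g) : D.Deligne σ := by
  classical
  refine rat_bridge hM cm hπ n ρ m σ hσ fun E _ _ ζ hζ l P A => ?_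
  obtain ⟨μ, hμ⟩ := exists_decomp (bc (algebraMap ℚ ℂ) ρ)
  have hμ' : IsDecomp (cch (toRep ρ)) μ := by
    have h1 : (fun q => (bc (algebraMap ℚ ℂ) ρ q).trace) = cch (toRep ρ) := by
      funext q
      rw [bc_trace]
      change _ = (((toRep ρ).character q : ℚ) : ℂ)
      rw [toRep_char]
      rfl
    rwa [h1] at hμ
  refine Pool.Agent.U157.DL.rat_reduced (P := fun _ => P) hζ A.mero (fun _ => A.per) A.mon hdeg ?_
    (toRep ρ) hμ'
  have h1 : {χ ∈ Irr Q | meromorphicOrderAt (l χ) 1 ≠ 0} = {χ : Q → ℂ | χ ∈ Irr Q ∧ ∃ ℓ : ℂ → ℂ,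
      D.IsL (ind H (fun h => χ (π h))) ℓ ∧ meromorphicOrderAt ℓ 1 ≠ 0} := by
    ext χ
    constructor
    · rintro ⟨h1, h2⟩
      exact ⟨h1, l χ, A.isL_irr h1, h2⟩
    · rintro ⟨h1, ℓ, h2, h3⟩
      refine ⟨h1, ?_⟩
      rwa [← A.order_irr h1 h2]
  rw [h1]
  exact hs

end Pool.Agent.U157.EC
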